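import Pool.Agent.Lib.MP_1a91b9_ntX.R.Fj
import Pool.Agent.Lib.MP_1a91b9_nuT.Nrm

/-!
# The Hecke characters of the curves `y² = x³ + D`: transfer to the field `K` of `CD`
-/

set_option autoImplicit false

namespace Pool.Agent.Lib.MP_1a91b9_nuX.HS

open NumberField IsDedekindDomain Pool.Agent.Lib.MP_1a91b9_nuT

/-- the field `ℚ(√-3)` -/
abbrev K0 : Type := Pool.Agent.Lib.MP_1a91b9_ntT.K

variable [CD]

theorem exists_iso (h1 : CD.tr = 1) (h2 : CD.nm = 1) : Nonempty (K0 ≃+* K) := by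
  have hq := ta_quad
  rw [h1, h2] at hq
  push_cast at hq
  obtain ⟨x, hx⟩ : ∃ x : K, x = (ta : K) - 1 := ⟨_, rfl⟩
  have hx1 : x ^ 2 + x + 1 = 0 := by
    have h3 := congrArg (algebraMap (𝓞 K) K) hq
    rw [map_pow, map_sub, map_mul, map_one, one_mul] at h3
    rw [hx]
    change algebraMap (𝓞 K) K ta ^ 2 = algebraMap (𝓞 K) K ta - 1 at h3
    change (algebraMap (𝓞 K) K ta - 1) ^ 2 + (algebraMap (𝓞 K) K ta - 1) + 1 = 0
    linear_combination h3
  have hp : Fact (Nat.Prime 3) := ⟨Nat.prime_three⟩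
  have hx3 : x ^ 3 = 1 := by linear_combination (x - 1) * hx1
  have hxn : x ≠ 1 := by
    intro h
    rw [h] at hx1
    norm_num at hx1
  have hprim : IsPrimitiveRoot x 3 := by
    rw [IsPrimitiveRoot.iff_orderOf]
    exact orderOf_eq_prime hx3 hxn
  let f : K0 →ₐ[ℚ] K := (Pool.Agent.Lib.MP_1a91b9_ntT.om_spec.embeddingsEquivPrimitiveRoots K
    (Polynomial.cyclotomic.irreducible_rat (by norm_num))).symm
    ⟨x, (mem_primitiveRoots (by norm_num)).2 hprim⟩
  have hfin : Module.finrank ℚ K0 = Module.finrank ℚ K := by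
    rw [finrank_K]
    have h3 := IsCyclotomicExtension.finrank (K := ℚ) (n := 3) K0
      (Polynomial.cyclotomic.irreducible_rat (by norm_num))
    rw [h3]
    decide
  have hinj : Function.Injective f := f.toRingHom.injective
  have hsurj : Function.Surjective f :=
    (LinearMap.injective_iff_surjective_of_finrank_eq_finrank hfin (f := f.toLinearMap)).1 hinj
  exact ⟨(AlgEquiv.ofBijective f ⟨hinj, hsurj⟩).toRingEquiv⟩

section
variable {A B : Type*} [CommRing A] [CommRing B] (e : A ≃+* B)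

theorem map_symm_map (I : Ideal B) : (I.map (e.symm : B →+* A)).map (e : A →+* B) = I := by
  rw [Ideal.map_map]
  have h : (e : A →+* B).comp (e.symm : B →+* A) = RingHom.id B := RingHom.ext e.apply_symm_apply
  rw [h, Ideal.map_id]

theorem mem_map_symm (I : Ideal B) (x : A) : x ∈ I.map (e.symm : B →+* A) ↔ e x ∈ I := by
  constructor
  · intro h
    have h3 := Ideal.mem_map_of_mem (e : A →+* B) h
    rw [map_symm_map] at h3
    exact h3
  · intro h
    have h3 := Ideal.mem_map_of_mem (e.symm : B →+* A) h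
    change e.symm (e x) ∈ _ at h3
    rwa [e.symm_apply_apply] at h3

theorem cop_map {I J : Ideal B} (h : IsCoprime I J) :
    IsCoprime (I.map (e.symm : B →+* A)) (J.map (e.symm : B →+* A)) := by
  rw [Ideal.isCoprime_iff_sup_eq] at h ⊢
  rw [← Ideal.map_sup, h, Ideal.map_top]

theorem cop_iff {I J : Ideal B} :
    IsCoprime (I.map (e.symm : B →+* A)) (J.map (e.symm : B →+* A)) ↔ IsCoprime I J := by
  constructor
  · intro h
    have h3 := cop_map e.symm h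
    change IsCoprime ((I.map (e.symm : B →+* A)).map (e : A →+* B))
      ((J.map (e.symm : B →+* A)).map (e : A →+* B)) at h3
    rwa [map_symm_map, map_symm_map] at h3
  · exact cop_map e

end

section
variable (e : 𝓞 K0 ≃+* 𝓞 K)

/-- the place of `ℚ(√-3)` -/
noncomputable def pl (P : HeightOneSpectrum (𝓞 K)) : HeightOneSpectrum (𝓞 K0) where
  asIdeal := P.asIdeal.map (e.symm : 𝓞 K →+* 𝓞 K0)
  isPrime := by
    have := P.isPrime
    exact Ideal.map_isPrime_of_equiv e.symm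
  ne_bot := by
    intro h
    apply P.ne_bot
    rw [← map_symm_map e P.asIdeal, h, Ideal.map_bot]

theorem mem_pl (P : HeightOneSpectrum (𝓞 K)) (x : 𝓞 K0) : x ∈ (pl e P).asIdeal ↔ e x ∈ P.asIdeal :=
  mem_map_symm e _ x

theorem absNorm_pl (P : HeightOneSpectrum (𝓞 K)) :
    Ideal.absNorm (pl e P).asIdeal = Ideal.absNorm P.asIdeal := by
  rw [Ideal.absNorm_apply, Ideal.absNorm_apply, Submodule.cardQuot_apply, Submodule.cardQuot_apply]
  refine Nat.card_congr (Ideal.quotientEquiv _ _ e ?_).toEquiv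
  exact (map_symm_map e P.asIdeal).symm

end

/-- the Hecke characters of the curves `y² = x³ + D` -/
theorem exists_hd (h1 : CD.tr = 1) (h2 : CD.nm = 1) (D : ℤ) (hD : D ≠ 0) :
    ∃ (f : 𝓞 K) (ps : Ideal (𝓞 K) → 𝓞 K), f ≠ 0 ∧ (3 : 𝓞 K) ∣ f ∧ ps 1 = 1 ∧
      (∀ I J, ps (I * J) = ps I * ps J) ∧
      (∀ I, IsCoprime I (Ideal.span {f}) → Ideal.span {ps I} = I) ∧
      (∀ I, ¬ IsCoprime I (Ideal.span {f}) → ps I = 0) ∧
      (∀ a : 𝓞 K, f ∣ a - 1 → ps (Ideal.span {a}) = a) ∧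
      (∀ P : HeightOneSpectrum (𝓞 K), ((6 * D : ℤ) : 𝓞 K) ∉ P.asIdeal → ∃ u : (𝓞 K)ˣ,
        (u : 𝓞 K) - ((4 * D : ℤ) : 𝓞 K) ^ ((Ideal.absNorm P.asIdeal - 1) / 6) ∈ P.asIdeal ∧
        (3 : 𝓞 K) ∣ (u : 𝓞 K) * ps P.asIdeal - 1) ∧
      (∀ P : HeightOneSpectrum (𝓞 K), f ∈ P.asIdeal → ((6 * D : ℤ) : 𝓞 K) ∈ P.asIdeal) ∧
      (∀ P : HeightOneSpectrum (𝓞 K), ((6 * D : ℤ) : 𝓞 K) ∈ P.asIdeal →
        ¬ ((2 : 𝓞 K) ∈ P.asIdeal ∧ ∃ m : ℤ, D = 16 * (4 * m + 1)) → f ∈ P.asIdeal) ∧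
      ((∃ m : ℤ, D = 16 * (4 * m + 1)) → ps (Ideal.span {2}) = -2) := by
  obtain ⟨E⟩ := exists_iso h1 h2
  let e : 𝓞 K0 ≃+* 𝓞 K := RingOfIntegers.mapRingEquiv E
  obtain ⟨f, ps, h⟩ := Pool.Agent.Lib.MP_1a91b9_ntX.R.exists_HD D hD
  have hspan : ∀ x : 𝓞 K0, (Ideal.span {e x}).map (e.symm : 𝓞 K →+* 𝓞 K0) = Ideal.span {x} := by
    intro x
    rw [Ideal.map_span, Set.image_singleton]
    have h3 : (e.symm : 𝓞 K →+* 𝓞 K0) (e x) = x := e.symm_apply_apply x
    rw [h3]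
  have hint : ∀ n : ℤ, e (n : 𝓞 K0) = n := fun n => map_intCast e n
  refine ⟨e f, fun I => e (ps (I.map (e.symm : 𝓞 K →+* 𝓞 K0))), ?_, ?_, ?_, ?_, ?_, ?_, ?_, ?_, ?_,
    ?_, ?_⟩
  · exact fun h3 => h.ne (e.injective (h3.trans (map_zero e).symm))
  · have h3 := map_dvd e h.three
    rwa [map_ofNat] at h3
  · change e (ps ((1 : Ideal (𝓞 K)).map _)) = 1
    rw [Ideal.one_eq_top, Ideal.map_top, ← Ideal.one_eq_top, h.one, map_one]
  · intro I J
    change e (ps ((I * J).map _)) = _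
    rw [Ideal.map_mul, h.mul, map_mul]
  · intro I hI
    have h3 : IsCoprime (I.map (e.symm : 𝓞 K →+* 𝓞 K0)) (Ideal.span {f}) := by
      rw [← hspan f]
      exact cop_map e hI
    have h4 := congrArg (fun J : Ideal (𝓞 K0) => J.map (e : 𝓞 K0 →+* 𝓞 K)) (h.span _ h3)
    have h5 : (Ideal.span {ps (I.map (e.symm : 𝓞 K →+* 𝓞 K0))}).map (e : 𝓞 K0 →+* 𝓞 K) =
      (I.map (e.symm : 𝓞 K →+* 𝓞 K0)).map (e : 𝓞 K0 →+* 𝓞 K) := h4
    rw [map_symm_map, Ideal.map_span, Set.image_singleton] at h5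
    exact h5
  · intro I hI
    change e (ps _) = 0
    rw [h.zero, map_zero]
    intro h3
    rw [← hspan f, cop_iff] at h3
    exact hI h3
  · intro a ha
    obtain ⟨b, rfl⟩ := e.surjective a
    change e (ps ((Ideal.span {e b}).map _)) = _
    rw [hspan, h.ray]
    have h3 := map_dvd e.symm ha
    rwa [e.symm_apply_apply, map_sub, e.symm_apply_apply, map_one] at h3
  · intro P hP
    have hP' : ((6 * D : ℤ) : 𝓞 K0) ∉ (pl e P).asIdeal := by
      rw [mem_pl, hint]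
      exact hP
    obtain ⟨u, hu1, hu2⟩ := h.sym (pl e P) hP'
    refine ⟨Units.map (e : 𝓞 K0 →* 𝓞 K) u, ?_, ?_⟩
    · rw [mem_pl, map_sub, map_pow, hint, absNorm_pl] at hu1
      exact hu1
    · have h3 := map_dvd e hu2
      rw [map_ofNat, map_sub, map_mul, map_one] at h3
      exact h3
  · intro P hP
    have h3 := h.good (pl e P) ((mem_pl e P f).2 hP)
    rwa [mem_pl, hint] at h3
  · intro P hP hn
    refine (mem_pl e P f).1 (h.bad (pl e P) ?_ ?_)
    · rw [mem_pl, hint]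
      exact hP
    · rintro ⟨h3, h4⟩
      rw [mem_pl, map_ofNat] at h3
      exact hn ⟨h3, h4⟩
  · intro hm
    change e (ps ((Ideal.span {(2 : 𝓞 K)}).map _)) = _
    have h3 : (2 : 𝓞 K) = e 2 := (map_ofNat e 2).symm
    rw [h3, hspan, h.two hm, map_neg, map_ofNat]

end Pool.Agent.Lib.MP_1a91b9_nuX.HS
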