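import Pool.Agent.Lib.MP_1a91b9_nuX.HS.Two
import Pool.Agent.Lib.MP_1a91b9_nuX.HS.Tr

/-!
# The Hecke datum of the curves `y² = x³ + B`
-/

set_option autoImplicit false

namespace Pool.Agent.Lib.MP_1a91b9_nuX.HS

open NumberField IsDedekindDomain WeierstrassCurve Pool.Agent.Lib.MP_1a91b9_nuT DB HU
open Pool.Agent.Lib.MP_1a91b9_nuX.GL

noncomputable section

variable [CD]

theorem eK_three : eK (3 : 𝓞 K) = 3 := by
  have h := eK_int (3 : ℤ)
  push_cast at h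
  exact h

theorem eK_two : eK (2 : 𝓞 K) = 2 := by
  have h := eK_int (2 : ℤ)
  push_cast at h
  exact h

/-- the action of `ps P` on a point of order three -/
theorem sm_three [DecidableEq Kb] {T : Pt Kb} (hT : (3 : ℕ) • T = 0) {a b : 𝓞 K}
    (h : (3 : 𝓞 K) ∣ a - b) : sm Kb a T = sm Kb b T := by
  obtain ⟨d, hd⟩ := h
  have e : a = b + d * 3 := by linear_combination hd
  have h3 := sm_nat (F := Kb) 3 T
  rw [hT, Nat.cast_ofNat] at h3
  rw [e, sm_add, sm_mul, h3, map_zero, add_zero]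

section
variable (h1 : CD.tr = 1) (h2 : CD.nm = 1) {b c : ℤ} (hc : c ≠ 0) (hb0 : b ≠ 0)
  (hB : CD.B = c ^ 6 * b)

include h1 h2 hc hb0 hB

/-- the Frobenius automorphisms at a place not dividing `6 b` -/
theorem frob_six [DecidableEq Kb] {P : HeightOneSpectrum (𝓞 K)}
    (hP : ((6 * b : ℤ) : 𝓞 K) ∉ P.asIdeal) {u : (𝓞 K)ˣ} {π : 𝓞 K}
    (hu : (u : 𝓞 K) - ((4 * b : ℤ) : 𝓞 K) ^ ((Ideal.absNorm P.asIdeal - 1) / 6) ∈ P.asIdeal)
    (hπ : (3 : 𝓞 K) ∣ (u : 𝓞 K) * π - 1)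
    (V : ValuationSubring Kb) (hV : Abv P V) (σ : Kb ≃ₐ[K] Kb)
    (hσ : IsFr V (Ideal.absNorm P.asIdeal) σ) :
    ∃ T : Pt Kb, Tr V.valuation T ∧ xc T ≠ 0 ∧ yc T ≠ 0 ∧ ga σ T = sm Kb π T := by
  obtain ⟨r, hr⟩ := IsAlgClosed.exists_pow_nat_eq (((4 * b : ℤ)) : Kb) (n := 6) (by norm_num)
  have hcb : (c : Kb) ≠ 0 := Int.cast_ne_zero.2 hc
  have h4b : ((4 * b : ℤ) : Kb) ≠ 0 := Int.cast_ne_zero.2 (mul_ne_zero (by norm_num) hb0)
  have hr0 : r ≠ 0 := by
    rintro rfl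
    rw [zero_pow (by norm_num)] at hr
    exact h4b hr.symm
  have hs : (c : Kb) * r ≠ 0 := mul_ne_zero hcb hr0
  have hBs : 4 * cB Kb = ((c : Kb) * r) ^ 6 := by
    change 4 * ((CD.B : ℤ) : Kb) = _
    rw [mul_pow, hr, hB]
    push_cast
    ring
  obtain ⟨T, hx, hy, hT0, hδ, hT3⟩ := test_pt h1 h2 hs hBs
  have h6 : (6 : 𝓞 K) ∉ P.asIdeal := by
    intro h3
    apply hP
    push_cast
    exact P.asIdeal.mul_mem_right _ h3
  have h3P : (3 : 𝓞 K) ∉ P.asIdeal := by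
    intro h3
    apply h6
    have e : (6 : 𝓞 K) = 2 * 3 := by norm_num
    rw [e]
    exact P.asIdeal.mul_mem_left _ h3
  have h4P : ((4 * b : ℤ) : 𝓞 K) ∉ P.asIdeal := by
    have e : ((4 * b : ℤ) : 𝓞 K) = (2 : 𝓞 K) ^ 2 * (b : 𝓞 K) := by
      push_cast
      ring
    rw [e]
    intro h3
    rcases P.isPrime.mem_or_mem h3 with h4 | h4
    · apply h6
      have e : (6 : 𝓞 K) = 3 * 2 := by norm_num
      rw [e]
      exact P.asIdeal.mul_mem_left _ (P.isPrime.mem_of_pow_mem _ h4)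
    · apply hP
      push_cast
      exact P.asIdeal.mul_mem_left _ h4
  have hVr : V.valuation r = 1 := by
    have h3 : V.valuation r ^ 6 = 1 := by
      rw [← map_pow, hr, ← eK_int]
      exact eK_eq_one hV h4P
    exact (pow_eq_one_iff.1 h3).resolve_right (by norm_num)
  have hσr : σ r ^ 6 = r ^ 6 := by
    rw [← map_pow, hr, map_intCast]
  obtain ⟨y, hy4⟩ : ∃ y : Kb, y = σ r / r := ⟨_, rfl⟩
  have hyr : σ r = y * r := by
    rw [hy4, div_mul_cancel₀ _ hr0]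
  have hy1 : y ^ 6 = 1 := by
    rw [hy4, div_pow, hσr, div_self (pow_ne_zero 6 hr0)]
  obtain ⟨w, hw⟩ := root_six h1 h2 hy1
  -- the norm is congruent to one modulo six
  obtain ⟨m, hm⟩ : ∃ m : ℕ, Ideal.absNorm P.asIdeal = 6 * m + 1 := by
    have hN0 : Ideal.absNorm P.asIdeal ≠ 0 := by
      rw [Ne, Ideal.absNorm_eq_zero_iff]
      exact P.ne_bot
    obtain ⟨q, r', hq, hr'⟩ : ∃ q r' : ℕ, Ideal.absNorm P.asIdeal - 1 = 6 * q + r' ∧ r' < 6 :=
      ⟨(Ideal.absNorm P.asIdeal - 1) / 6, (Ideal.absNorm P.asIdeal - 1) % 6,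
        (Nat.div_add_mod _ 6).symm, Nat.mod_lt _ (by norm_num)⟩
    have hmax := P.isMaximal
    have hfer : ((taU h2 : (𝓞 K)ˣ) : 𝓞 K) ^ (Ideal.absNorm P.asIdeal - 1) - 1 ∈ P.asIdeal := by
      classical
      let _ : Field (𝓞 K ⧸ P.asIdeal) := Ideal.Quotient.field _
      have i2 : Finite (𝓞 K ⧸ P.asIdeal) := Ideal.finiteQuotientOfFreeOfNeBot _ P.ne_bot
      let _ : Fintype (𝓞 K ⧸ P.asIdeal) := Fintype.ofFinite _
      have h5 : Fintype.card (𝓞 K ⧸ P.asIdeal) = Ideal.absNorm P.asIdeal := by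
        rw [← Nat.card_eq_fintype_card]
        rfl
      have h7 : (Ideal.Quotient.mk P.asIdeal ((taU h2 : (𝓞 K)ˣ) : 𝓞 K)) ≠ 0 := fun h0 =>
        P.isPrime.ne_top (Ideal.eq_top_of_isUnit_mem _ (Ideal.Quotient.eq_zero_iff_mem.1 h0)
          (taU h2).isUnit)
      rw [← Ideal.Quotient.eq_zero_iff_mem, map_sub, map_pow, map_one, ← h5,
        FiniteField.pow_card_sub_one_eq_one _ h7, sub_self]
    have h8 : (taU h2) ^ r' = 1 := by
      refine unit_cong h1 h2 h6 ?_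
      rw [Units.val_one]
      rw [hq, pow_add, pow_mul] at hfer
      have h9 : ((taU h2 : (𝓞 K)ˣ) : 𝓞 K) ^ 6 = 1 := by
        have h10 := unit_six h1 h2 (taU h2)
        rw [← Units.val_pow_eq_pow_val, h10, Units.val_one]
      rw [h9, one_pow, one_mul] at hfer
      rw [Units.val_pow_eq_pow_val]
      exact hfer
    have hq6 := ta_six h1 h2
    have h9 : (ta : 𝓞 K) ^ r' = 1 := by
      have h10 := congrArg (fun z : (𝓞 K)ˣ => (z : 𝓞 K)) h8
      rw [← taU_val h2, ← Units.val_pow_eq_pow_val]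
      exact h10
    have key : ∀ p q : ℤ, (p : 𝓞 K) + (q : 𝓞 K) * ta = 1 → p = 1 ∧ q = 0 := by
      intro p q e
      have e1 : (p : 𝓞 K) + (q : 𝓞 K) * ta = ((1 : ℤ) : 𝓞 K) + ((0 : ℤ) : 𝓞 K) * ta := by
        rw [e]
        push_cast
        ring
      exact coords_inj e1
    have hr0' : r' = 0 := by
      interval_cases r'
      · rfl
      · have := (key 0 1 (by push_cast; linear_combination h9)).1
        norm_num at this
      · have := (key (-1) 1 (by push_cast; linear_combination h9 - hq6)).1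
        norm_num at this
      · have := (key (-1) 0 (by push_cast; linear_combination h9 - (ta + 1 : 𝓞 K) * hq6)).1
        norm_num at this
      · have := (key 0 (-1) (by push_cast; linear_combination h9 - (ta ^ 2 + ta : 𝓞 K) * hq6)).1
        norm_num at this
      · have := (key 1 (-1) (by
          push_cast
          linear_combination h9 - (ta ^ 3 + ta ^ 2 - 1 : 𝓞 K) * hq6)).2
        norm_num at this
    refine ⟨q, ?_⟩
    omega
  have hfr := hσ r hVr.le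
  have hwu : w = u := by
    refine unit_cong h1 h2 h6 ?_
    have e2 : (Ideal.absNorm P.asIdeal - 1) / 6 = m := by omega
    rw [e2] at hu
    have h3 : (w : 𝓞 K) - ((4 * b : ℤ) : 𝓞 K) ^ m ∈ P.asIdeal := by
      rw [← eK_lt hV, eK_sub, eK_pow, eK_int, ← hw]
      have e3 : σ r - r ^ Ideal.absNorm P.asIdeal = r * (y - ((4 * b : ℤ) : Kb) ^ m) := by
        rw [hm, hyr, ← hr, pow_succ, pow_mul]
        ring
      rw [e3, map_mul, hVr, one_mul] at hfr
      exact hfr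
    have h4 := P.asIdeal.sub_mem h3 hu
    rwa [sub_sub_sub_cancel_right] at h4
  refine ⟨T, ⟨3, ?_, hT3⟩, ?_, ?_, ?_⟩
  · rw [Nat.cast_ofNat, ← eK_three]
    exact eK_eq_one hV h3P
  · rw [hx]
    exact neg_ne_zero.2 (pow_ne_zero 2 hs)
  · rw [hy]
    exact div_ne_zero (mul_ne_zero hδ (pow_ne_zero 3 hs)) two_ne_zero
  · have e5 : sm Kb π T = sm Kb ((u⁻¹ : (𝓞 K)ˣ) : 𝓞 K) T := by
      refine sm_three hT3 ?_
      have e6 : π - ((u⁻¹ : (𝓞 K)ˣ) : 𝓞 K) = ((u⁻¹ : (𝓞 K)ˣ) : 𝓞 K) * ((u : 𝓞 K) * π - 1) := by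
        rw [mul_sub, ← mul_assoc, ← Units.val_mul, inv_mul_cancel, Units.val_one]
        ring
      rw [e6]
      exact Dvd.dvd.mul_left hπ _
    rw [e5]
    obtain ⟨f⟩ := exists_kb
    obtain ⟨a1, a2⟩ := sm_unit f u⁻¹ T
    have e7 : eK ((u⁻¹ : (𝓞 K)ˣ) : 𝓞 K) * y = 1 := by
      rw [hw, hwu, ← eK_mul, ← Units.val_mul, inv_mul_cancel, Units.val_one, eK_one]
    have hne : sm Kb ((u⁻¹ : (𝓞 K)ˣ) : 𝓞 K) T ≠ 0 := by
      intro h3
      have h4 : sm Kb (u : 𝓞 K) (sm Kb ((u⁻¹ : (𝓞 K)ˣ) : 𝓞 K) T) = T := by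
        rw [← sm_mul, ← Units.val_mul, mul_inv_cancel, Units.val_one, sm_one]
      rw [h3, map_zero] at h4
      exact hT0 h4.symm
    have hσδ : σ (eK (2 * ta - 1)) = eK (2 * ta - 1) := σ.commutes _
    refine pt_ext ((gk_ne σ).not.2 hT0) hne ?_ ?_
    · rw [xc_gk, hx]
      rw [hx] at a1
      change xc (sm Kb ((u⁻¹ : (𝓞 K)ˣ) : 𝓞 K) T) * eK ((u⁻¹ : (𝓞 K)ˣ) : 𝓞 K) ^ 2 = _ at a1
      rw [map_neg, map_pow, map_mul, map_intCast, hyr]
      linear_combination (-y ^ 2) * a1 + xc (sm Kb ((u⁻¹ : (𝓞 K)ˣ) : 𝓞 K) T) *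
        (eK ((u⁻¹ : (𝓞 K)ˣ) : 𝓞 K) * y + 1) * e7
    · rw [yc_gk, hy]
      rw [hy] at a2
      change yc (sm Kb ((u⁻¹ : (𝓞 K)ˣ) : 𝓞 K) T) * eK ((u⁻¹ : (𝓞 K)ˣ) : 𝓞 K) ^ 3 = _ at a2
      rw [map_div₀, map_mul, map_pow, map_mul, map_intCast, map_ofNat, hσδ, hyr]
      linear_combination (-y ^ 3) * a2 + yc (sm Kb ((u⁻¹ : (𝓞 K)ˣ) : 𝓞 K) T) *
        ((eK ((u⁻¹ : (𝓞 K)ˣ) : 𝓞 K) * y) ^ 2 + eK ((u⁻¹ : (𝓞 K)ˣ) : 𝓞 K) * y + 1) * e7

/-- the Frobenius automorphisms at the place over `2` in the case of good reduction -/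
theorem frob_two [DecidableEq Kb] {m : ℤ} (hm : b = 16 * (4 * m + 1))
    {P : HeightOneSpectrum (𝓞 K)} (hP : (2 : 𝓞 K) ∈ P.asIdeal)
    (V : ValuationSubring Kb) (hV : Abv P V) (σ : Kb ≃ₐ[K] Kb)
    (hσ : IsFr V (Ideal.absNorm P.asIdeal) σ) :
    ∃ T : Pt Kb, Tr V.valuation T ∧ xc T ≠ 0 ∧ yc T ≠ 0 ∧ ga σ T = sm Kb (-2 : 𝓞 K) T := by
  have hN : Ideal.absNorm P.asIdeal = 4 := by
    rw [two_eq h1 h2 hP]
    have h3 := absNorm_form 2 0
    rw [Int.cast_zero, zero_mul, add_zero, Int.cast_ofNat] at h3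
    have h4 : ((Ideal.absNorm (Ideal.span {(2 : 𝓞 K)}) : ℕ) : ℤ) = ((4 : ℕ) : ℤ) := by
      rw [h3]
      norm_num
    exact_mod_cast h4
  rw [hN] at hσ
  obtain ⟨r, hr⟩ := IsAlgClosed.exists_pow_nat_eq (((4 * m + 1 : ℤ)) : Kb) (n := 6) (by norm_num)
  have hcb : (c : Kb) ≠ 0 := Int.cast_ne_zero.2 hc
  have hm0 : (4 * m + 1 : ℤ) ≠ 0 := by
    intro h0
    rw [h0, mul_zero] at hm
    exact hb0 hm
  have hmb : ((4 * m + 1 : ℤ) : Kb) ≠ 0 := Int.cast_ne_zero.2 hm0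
  have hr0 : r ≠ 0 := by
    rintro rfl
    rw [zero_pow (by norm_num)] at hr
    exact hmb hr.symm
  have hs : 2 * (c : Kb) * r ≠ 0 := mul_ne_zero (mul_ne_zero two_ne_zero hcb) hr0
  have hBs : 4 * cB Kb = (2 * (c : Kb) * r) ^ 6 := by
    change 4 * ((CD.B : ℤ) : Kb) = _
    rw [mul_pow, hr, hB, hm]
    push_cast
    ring
  obtain ⟨T, hx, hy, hT0, hδ, hT3⟩ := test_pt h1 h2 hs hBs
  have hodd : ∀ a : ℤ, Odd a → (a : 𝓞 K) ∉ P.asIdeal := by
    rintro a ⟨b', hb'⟩ h3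
    apply P.isPrime.ne_top
    rw [Ideal.eq_top_iff_one]
    have e : (1 : 𝓞 K) = (a : 𝓞 K) - (b' : 𝓞 K) * 2 := by
      rw [hb']
      push_cast
      ring
    rw [e]
    exact P.asIdeal.sub_mem h3 (P.asIdeal.mul_mem_left _ hP)
  have h3P : (3 : 𝓞 K) ∉ P.asIdeal := by
    have h4 := hodd 3 ⟨1, by norm_num⟩
    push_cast at h4
    exact h4
  have hV2 : V.valuation (2 : Kb) < 1 := by
    rw [← eK_two]
    exact (eK_lt hV _).2 hP
  have hVr : V.valuation r = 1 := by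
    have h3 : V.valuation r ^ 6 = 1 := by
      rw [← map_pow, hr, ← eK_int]
      exact eK_eq_one hV (hodd _ ⟨2 * m, by ring⟩)
    exact (pow_eq_one_iff.1 h3).resolve_right (by norm_num)
  have hint : ∀ n : ℤ, V.valuation (n : Kb) ≤ 1 := fun n => by
    rw [← eK_int]
    exact eK_le hV _
  -- the cube of `r`
  obtain ⟨g, hg⟩ : ∃ g : Kb, g = r ^ 3 := ⟨_, rfl⟩
  have hg2 : g ^ 2 = 4 * (m : Kb) + 1 := by
    rw [hg, ← pow_mul, hr]
    push_cast
    ring
  have hVg : V.valuation g = 1 := by rw [hg, map_pow, hVr, one_pow]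
  obtain ⟨z, hz⟩ : ∃ z : Kb, z = (g - 1) / 2 := ⟨_, rfl⟩
  have hgz : g = 1 + 2 * z := by
    rw [hz]
    ring
  have hzm : z ^ 2 + z = m := by
    have h3 : (4 : Kb) * (z ^ 2 + z - m) = 0 := by
      rw [hgz] at hg2
      linear_combination hg2
    exact sub_eq_zero.1 ((mul_eq_zero.1 h3).resolve_left (by norm_num))
  have hVz : V.valuation z ≤ 1 := by
    by_contra h3
    push Not at h3
    have h4 : V.valuation (z ^ 2 + z) = V.valuation z ^ 2 := by
      rw [← map_pow]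
      refine Valuation.map_add_eq_of_lt_left _ ?_
      rw [map_pow, pow_two]
      have h0 : 0 < V.valuation z := lt_trans zero_lt_one h3
      have h9 := mul_lt_mul_of_pos_left h3 h0
      rwa [mul_one] at h9
    rw [hzm] at h4
    have h5 : 1 < V.valuation z ^ 2 := one_lt_pow₀ h3 two_ne_zero
    rw [← h4] at h5
    exact absurd (hint m) (not_le.2 h5)
  have hfz := hσ z hVz
  -- `σ z` is congruent to `z`
  have hσz : V.valuation (σ z - z) < 1 := by
    obtain ⟨k, hk⟩ : ∃ k : ℤ, m ^ 2 + m = 2 * k := by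
      have h3 : Even (m * (m + 1)) := Int.even_mul_succ_self m
      obtain ⟨k, hk⟩ := h3
      exact ⟨k, by linear_combination hk⟩
    have e : σ z - z = (σ z - z ^ 4) + 2 * ((k : Kb) - m * z - z) := by
      have hk' : (m : Kb) ^ 2 + m = 2 * k := by exact_mod_cast congrArg (fun n : ℤ => (n : Kb)) hk
      linear_combination (z ^ 2 - z + m + 1) * hzm + hk'
    rw [e]
    refine (V.valuation.map_add _ _).trans_lt (max_lt hfz ?_)
    rw [map_mul]
    refine mul_lt_one_of_lt_of_le hV2 ?_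
    refine (V.valuation.map_sub _ _).trans (max_le ?_ hVz)
    refine (V.valuation.map_sub _ _).trans (max_le (hint k) ?_)
    rw [map_mul]
    exact mul_le_one' (hint m) hVz
  have hσg2 : σ g ^ 2 = g ^ 2 := by
    rw [← map_pow, hg2, map_add, map_mul, map_intCast, map_one, map_ofNat]
  have hσg : σ g = g := by
    have h3 : (σ g - g) * (σ g + g) = 0 := by linear_combination hσg2
    rcases mul_eq_zero.1 h3 with h4 | h4
    · exact sub_eq_zero.1 h4
    · exfalso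
      have h5 : σ z = (σ g - 1) / 2 := by rw [hz, map_div₀, map_sub, map_one, map_ofNat]
      have h6 : σ z - z = -g := by
        rw [h5, hz]
        linear_combination h4 / 2
      rw [h6, Valuation.map_neg, hVg] at hσz
      exact lt_irrefl _ hσz
  -- `σ r = r`
  have hfr := hσ r hVr.le
  obtain ⟨y, hy4⟩ : ∃ y : Kb, y = σ r / r := ⟨_, rfl⟩
  have hyr : σ r = y * r := by
    rw [hy4, div_mul_cancel₀ _ hr0]
  have hy3 : y ^ 3 = 1 := by
    rw [hy4, div_pow, ← map_pow, ← hg, hσg, div_self]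
    rw [hg]
    exact pow_ne_zero 3 hr0
  have hVy : V.valuation (y - 1) < 1 := by
    have e3 : σ r - r ^ 4 = r * (y - g) := by
      rw [hyr, hg]
      ring
    rw [e3, map_mul, hVr, one_mul] at hfr
    have e4 : y - 1 = (y - g) + 2 * z := by
      rw [hgz]
      ring
    rw [e4]
    refine (V.valuation.map_add _ _).trans_lt (max_lt hfr ?_)
    rw [map_mul]
    exact mul_lt_one_of_lt_of_le hV2 hVz
  have hy1 : y = 1 := by
    by_contra hne
    have h3 : (y - 1) * (y ^ 2 + y + 1) = 0 := by linear_combination hy3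
    have h4 := (mul_eq_zero.1 h3).resolve_left (sub_ne_zero.2 hne)
    have e : (3 : Kb) = (y - 1) * (-(y + 2)) := by linear_combination h4
    have hVy1 : V.valuation y = 1 := by
      have h5 : V.valuation y ^ 3 = 1 := by rw [← map_pow, hy3, map_one]
      exact (pow_eq_one_iff.1 h5).resolve_right (by norm_num)
    have h6 : V.valuation (3 : Kb) < 1 := by
      rw [e, map_mul]
      refine mul_lt_one_of_lt_of_le hVy ?_
      rw [Valuation.map_neg]
      refine (V.valuation.map_add _ _).trans (max_le hVy1.le ?_)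
      exact hV2.le
    rw [← eK_three, eK_eq_one hV h3P] at h6
    exact lt_irrefl _ h6
  have hσr : σ r = r := by rw [hyr, hy1, one_mul]
  have hσδ : σ (eK (2 * ta - 1)) = eK (2 * ta - 1) := σ.commutes _
  refine ⟨T, ⟨3, ?_, hT3⟩, ?_, ?_, ?_⟩
  · rw [Nat.cast_ofNat, ← eK_three]
    exact eK_eq_one hV h3P
  · rw [hx]
    exact neg_ne_zero.2 (pow_ne_zero 2 hs)
  · rw [hy]
    exact div_ne_zero (mul_ne_zero hδ (pow_ne_zero 3 hs)) two_ne_zero
  · have e5 : sm Kb (-2 : 𝓞 K) T = sm Kb 1 T := sm_three hT3 ⟨-1, by norm_num⟩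
    rw [e5, sm_one]
    refine pt_ext ((gk_ne σ).not.2 hT0) hT0 ?_ ?_
    · rw [xc_gk, hx, map_neg, map_pow, map_mul, map_mul, map_intCast, map_ofNat, hσr]
    · rw [yc_gk, hy, map_div₀, map_mul, map_pow, map_mul, map_mul, map_intCast, map_ofNat, hσδ, hσr]

end

/-- **The Hecke datum for the discriminant `-3`.** -/
theorem hdat_six (h1 : CD.tr = 1) (h2 : CD.nm = 1) :
    ∃ (f : 𝓞 K) (ps : Ideal (𝓞 K) → 𝓞 K), HDat f ps := by
  have hB0 : CD.B ≠ 0 := by
    intro h3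
    have h4 := CD.disc (self := inferInstance)
    rw [h3, A_zero h1 h2] at h4
    norm_num at h4
  obtain ⟨c, b, hB, hfree⟩ := exists_free (k := 6) (by norm_num) CD.B hB0
  have hc : c ≠ 0 := by
    rintro rfl
    rw [zero_pow (by norm_num), zero_mul] at hB
    exact hB0 hB
  have hb0 : b ≠ 0 := by
    rintro rfl
    rw [mul_zero] at hB
    exact hB0 hB
  obtain ⟨f, ps, p0, p3, p1, pm, psp, pz, pr, psy, pg, pb, p2⟩ := exists_hd h1 h2 b hb0
  -- the place over `2`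
  have htwo : ∀ P : HeightOneSpectrum (𝓞 K), (2 : 𝓞 K) ∈ P.asIdeal →
      (∃ m : ℤ, b = 16 * (4 * m + 1)) → f ∉ P.asIdeal := by
    intro P hP hm hf
    have h3 := p2 hm
    rw [← two_eq h1 h2 hP, pz] at h3
    · have h4 : ((2 : ℤ) : 𝓞 K) = ((0 : ℤ) : 𝓞 K) := by
        push_cast
        linear_combination h3
      exact absurd (Int.cast_injective h4) (by norm_num)
    · intro hco
      rw [Ideal.isCoprime_iff_sup_eq] at hco
      apply P.isPrime.ne_top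
      rw [← hco]
      exact (sup_eq_left.2 ((Ideal.span_singleton_le_iff_mem _).2 hf)).symm
  refine ⟨f, ps, hdat_of (ellK_six h1 h2) p0 ⟨3, le_rfl, by rw [Nat.cast_ofNat]; exact p3⟩ p1 pm psp
    pz pr ?_ ?_ ?_⟩
  · intro P hf
    by_cases h6 : ((6 * b : ℤ) : 𝓞 K) ∈ P.asIdeal
    · by_cases hsp : (2 : 𝓞 K) ∈ P.asIdeal ∧ ∃ m : ℤ, b = 16 * (4 * m + 1)
      · obtain ⟨hP, m, hm⟩ := hsp
        exact good_two h1 h2 hc hB hm hP
      · exact absurd (pb P h6 hsp) hf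
    · exact good_six h1 h2 hc hB h6
  · intro P hf
    by_cases hP2 : (2 : 𝓞 K) ∈ P.asIdeal
    · exact bad_two h1 h2 hc hb0 hB hfree hP2 fun hm => htwo P hP2 hm hf
    · exact bad_six h1 h2 hc hb0 hB hfree (pg P hf) hP2
  · intro _ P hf V hV σ hσ
    by_cases h6 : ((6 * b : ℤ) : 𝓞 K) ∈ P.asIdeal
    · by_cases hsp : (2 : 𝓞 K) ∈ P.asIdeal ∧ ∃ m : ℤ, b = 16 * (4 * m + 1)
      · obtain ⟨hP, m, hm⟩ := hsp
        have e : ps P.asIdeal = -2 := by
          rw [two_eq h1 h2 hP]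
          exact p2 ⟨m, hm⟩
        rw [e]
        exact frob_two h1 h2 hc hb0 hB hm hP V hV σ hσ
      · exact absurd (pb P h6 hsp) hf
    · obtain ⟨u, hu1, hu2⟩ := psy P h6
      exact frob_six h1 h2 hc hb0 hB h6 hu1 hu2 V hV σ hσ

end

end Pool.Agent.Lib.MP_1a91b9_nuX.HS
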