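import Pool.Agent.Lib.MP_1a91b9_nuX.HS.Test
import Pool.Agent.Lib.MP_1a91b9_nuX.HU.Good
import Pool.Agent.Lib.MP_1a91b9_nuX.GL.EllA

/-!
# The places of good and bad reduction of `y² = x³ + c⁶ b`
-/

set_option autoImplicit false

namespace Pool.Agent.Lib.MP_1a91b9_nuX.HS

open NumberField IsDedekindDomain WeierstrassCurve Pool.Agent.Lib.MP_1a91b9_nuT DB HU
open Pool.Agent.Lib.MP_1a91b9_nuX.GL

noncomputable section

variable [CD] (h1 : CD.tr = 1) (h2 : CD.nm = 1)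

include h1 h2

/-- an odd rational integer which is a square modulo `4` in `𝓞 K` -/
theorem sq_mod_four {m : ℤ} (hm : Odd m) {x : 𝓞 K} (h : (4 : 𝓞 K) ∣ (m : 𝓞 K) - x ^ 2) :
    ∃ l : ℤ, m = 4 * l + 1 := by
  have hq := ta_six h1 h2
  obtain ⟨p, q, rfl⟩ := exists_coords x
  obtain ⟨y, hy⟩ := h
  obtain ⟨r, s, rfl⟩ := exists_coords y
  have e : ((m - p ^ 2 + q ^ 2 : ℤ) : 𝓞 K) + ((-(2 * p * q + q ^ 2) : ℤ) : 𝓞 K) * ta =
      ((4 * r : ℤ) : 𝓞 K) + ((4 * s : ℤ) : 𝓞 K) * ta := by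
    push_cast
    linear_combination hy + (q : 𝓞 K) ^ 2 * hq
  obtain ⟨e1, e2⟩ := coords_inj e
  have e3 : q * (2 * p + q) = 4 * (-s) := by linear_combination -e2
  obtain ⟨a, ha⟩ := hm
  rcases Int.even_or_odd q with ⟨b, hb⟩ | hq1
  · rcases Int.even_or_odd p with ⟨c, hc⟩ | ⟨c, hc⟩
    · exfalso
      have e4 : m = 4 * (r + c ^ 2 - b ^ 2) := by
        rw [hb, hc] at e1
        linear_combination e1
      omega
    · refine ⟨r + c ^ 2 + c - b ^ 2, ?_⟩
      rw [hb, hc] at e1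
      linear_combination e1
  · exfalso
    have h3 : Odd (q * (2 * p + q)) := by
      have h4 : Odd (2 * p + q) := by
        obtain ⟨c, hc⟩ := hq1
        exact ⟨p + c, by rw [hc]; ring⟩
      exact hq1.mul h4
    rw [e3] at h3
    obtain ⟨d, hd⟩ := h3
    omega

/-- the place over `2` -/
theorem two_eq {P : HeightOneSpectrum (𝓞 K)} (hP : (2 : 𝓞 K) ∈ P.asIdeal) :
    P.asIdeal = Ideal.span {(2 : 𝓞 K)} := by
  have hq := ta_six h1 h2
  refine le_antisymm ?_ ((Ideal.span_singleton_le_iff_mem _).2 hP)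
  intro x hx
  rw [Ideal.mem_span_singleton]
  obtain ⟨m, n, rfl⟩ := exists_coords x
  have h6 : ∀ a : ℤ, Odd a → (a : 𝓞 K) ∉ P.asIdeal := by
    rintro a ⟨b, hb⟩ h3
    apply P.isPrime.ne_top
    rw [Ideal.eq_top_iff_one]
    have e : (1 : 𝓞 K) = (a : 𝓞 K) - (b : 𝓞 K) * 2 := by
      rw [hb]
      push_cast
      ring
    rw [e]
    exact P.asIdeal.sub_mem h3 (P.asIdeal.mul_mem_left _ hP)
  -- the norm form is even
  have h7 : ((m ^ 2 + m * n + n ^ 2 : ℤ) : 𝓞 K) ∈ P.asIdeal := by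
    have e : ((m ^ 2 + m * n + n ^ 2 : ℤ) : 𝓞 K) =
        ((m : 𝓞 K) + n - n * ta) * ((m : 𝓞 K) + (n : 𝓞 K) * ta) := by
      push_cast
      linear_combination (n : 𝓞 K) ^ 2 * hq
    rw [e]
    exact P.asIdeal.mul_mem_left _ hx
  have h8 : ¬ Odd (m ^ 2 + m * n + n ^ 2) := fun h9 => h6 _ h9 h7
  rw [Int.not_odd_iff_even] at h8
  have h9 : Even m ∧ Even n := by
    rcases Int.even_or_odd m with hm | hm <;> rcases Int.even_or_odd n with hn | hn
    · exact ⟨hm, hn⟩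
    · exfalso
      obtain ⟨a, ha⟩ := hm
      obtain ⟨b, hb⟩ := hn
      obtain ⟨c, hc⟩ := h8
      rw [ha, hb] at hc
      have e : 2 * (2 * a ^ 2 + a * (2 * b + 1) + 2 * b ^ 2 + 2 * b - c) = -1 := by
        linear_combination hc
      omega
    · exfalso
      obtain ⟨a, ha⟩ := hm
      obtain ⟨b, hb⟩ := hn
      obtain ⟨c, hc⟩ := h8
      rw [ha, hb] at hc
      have e : 2 * (2 * a ^ 2 + 2 * a + (2 * a + 1) * b + 2 * b ^ 2 - c) = -1 := by
        linear_combination hc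
      omega
    · exfalso
      obtain ⟨a, ha⟩ := hm
      obtain ⟨b, hb⟩ := hn
      obtain ⟨c, hc⟩ := h8
      rw [ha, hb] at hc
      have e : 2 * (2 * a ^ 2 + 2 * a + 2 * a * b + a + b + 2 * b ^ 2 + 2 * b + 1 - c) = -1 := by
        linear_combination hc
      omega
  obtain ⟨⟨a, ha⟩, ⟨b, hb⟩⟩ := h9
  refine ⟨(a : 𝓞 K) + (b : 𝓞 K) * ta, ?_⟩
  rw [ha, hb]
  push_cast
  ring

variable {b c : ℤ} (hc : c ≠ 0) (hb0 : b ≠ 0) (hB : CD.B = c ^ 6 * b)

include hc hB in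
/-- the places not dividing `6 b` -/
theorem good_six {P : HeightOneSpectrum (𝓞 K)} (hP : ((6 * b : ℤ) : 𝓞 K) ∉ P.asIdeal) :
    ∃ C : VariableChange K, GM.GoodW (P.valuation K) (C • E K) := by
  refine good_scale (c := (c : K)) (Int.cast_ne_zero.2 hc) (a := 0) (b := b) ?_ ?_ ?_
  · change ((CD.A : ℤ) : K) = _
    rw [A_zero h1 h2, Int.cast_zero, mul_zero]
  · change ((CD.B : ℤ) : K) = _
    rw [hB]
    push_cast
    ring
  · intro h3
    apply hP
    have e : ((16 * (4 * 0 ^ 3 + 27 * b ^ 2) : ℤ) : 𝓞 K) = (2 : 𝓞 K) ^ 4 * ((3 : 𝓞 K) ^ 3 *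
        (b : 𝓞 K) ^ 2) := by
      push_cast
      ring
    have e6 : ((6 * b : ℤ) : 𝓞 K) = 2 * (3 * (b : 𝓞 K)) := by
      push_cast
      ring
    rw [e] at h3
    rw [e6]
    rcases P.isPrime.mem_or_mem h3 with h4 | h4
    · exact P.asIdeal.mul_mem_right _ (P.isPrime.mem_of_pow_mem _ h4)
    · rcases P.isPrime.mem_or_mem h4 with h5 | h5
      · exact P.asIdeal.mul_mem_left _ (P.asIdeal.mul_mem_right _ (P.isPrime.mem_of_pow_mem _ h5))
      · exact P.asIdeal.mul_mem_left _ (P.asIdeal.mul_mem_left _ (P.isPrime.mem_of_pow_mem _ h5))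

include hc hB in
/-- the place over `2` in the case of good reduction -/
theorem good_two {m : ℤ} (hm : b = 16 * (4 * m + 1)) {P : HeightOneSpectrum (𝓞 K)}
    (hP : (2 : 𝓞 K) ∈ P.asIdeal) :
    ∃ C : VariableChange K, GM.GoodW (P.valuation K) (C • E K) := by
  have hc0 : (c : K) ≠ 0 := Int.cast_ne_zero.2 hc
  have h20 : (2 : K) * c ≠ 0 := mul_ne_zero two_ne_zero hc0
  have eA : cA K = 0 := by
    change ((CD.A : ℤ) : K) = 0
    rw [A_zero h1 h2, Int.cast_zero]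
  have eB : cB K = (c : K) ^ 6 * (16 * (4 * (m : K) + 1)) := by
    change ((CD.B : ℤ) : K) = _
    rw [hB, hm]
    push_cast
    ring
  refine ⟨⟨Units.mk0 (2 * (c : K)) h20, 0, 0, 4 * (c : K) ^ 3⟩, ?_⟩
  have hci : (((Units.mk0 (2 * (c : K)) h20)⁻¹ : Kˣ) : K) = (2 * (c : K))⁻¹ := by simp
  have hW : (⟨Units.mk0 (2 * (c : K)) h20, 0, 0, 4 * (c : K) ^ 3⟩ : VariableChange K) • E K =
      ⟨0, 0, 1, 0, (m : K)⟩ := by
    ext
    · rw [variableChange_a₁]
      simp [E]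
    · rw [variableChange_a₂]
      simp [E]
    · rw [variableChange_a₃, hci]
      simp only [E]
      field_simp
      ring
    · rw [variableChange_a₄]
      simp only [E]
      rw [eA]
      ring
    · rw [variableChange_a₆, hci]
      simp only [E]
      rw [eA, eB]
      field_simp
      ring
  rw [hW]
  have hodd : ((4 * m + 1 : ℤ) : 𝓞 K) ∉ P.asIdeal := by
    intro h3
    apply P.isPrime.ne_top
    rw [Ideal.eq_top_iff_one]
    have e : (1 : 𝓞 K) = ((4 * m + 1 : ℤ) : 𝓞 K) - (2 * (m : 𝓞 K)) * 2 := by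
      push_cast
      ring
    rw [e]
    exact P.asIdeal.sub_mem h3 (P.asIdeal.mul_mem_left _ hP)
  have h27 : ((-27 * (4 * m + 1) ^ 2 : ℤ) : 𝓞 K) ∉ P.asIdeal := by
    intro h3
    have e : ((-27 * (4 * m + 1) ^ 2 : ℤ) : 𝓞 K) = (-27 : 𝓞 K) * ((4 * m + 1 : ℤ) : 𝓞 K) ^ 2 := by
      push_cast
      ring
    rw [e] at h3
    rcases P.isPrime.mem_or_mem h3 with h4 | h4
    · apply P.isPrime.ne_top
      rw [Ideal.eq_top_iff_one]
      have e1 : (1 : 𝓞 K) = -27 + 14 * 2 := by norm_num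
      rw [e1]
      exact P.asIdeal.add_mem h4 (P.asIdeal.mul_mem_left _ hP)
    · exact hodd (P.isPrime.mem_of_pow_mem _ h4)
  refine ⟨⟨?_, ?_, ?_, ?_, ?_⟩, ?_⟩
  · exact (map_zero (P.valuation K)).trans_le zero_le
  · exact (map_zero (P.valuation K)).trans_le zero_le
  · exact (map_one (P.valuation K)).le
  · exact (map_zero (P.valuation K)).trans_le zero_le
  · exact val_le_int _
  · have e : (⟨0, 0, 1, 0, (m : K)⟩ : WeierstrassCurve K).Δ =
        (((-27 * (4 * m + 1) ^ 2 : ℤ)) : K) := by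
      simp only [WeierstrassCurve.Δ, WeierstrassCurve.b₂, WeierstrassCurve.b₄,
        WeierstrassCurve.b₆, WeierstrassCurve.b₈]
      push_cast
      ring
    rw [e]
    exact val_one_of h27

omit h1 h2 in
theorem exp_ne {j : ℤ} : (WithZero.exp j : WithZero (Multiplicative ℤ)) ≠ 0 := WithZero.exp_ne_zero

include hc hb0 hB in
/-- the exponent of the discriminant -/
theorem disc_val {P : HeightOneSpectrum (𝓞 K)} {p : ℕ} (hp : p.Prime) (hpP : (p : 𝓞 K) ∈ P.asIdeal)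
    (hsq : (p : 𝓞 K) ∉ P.asIdeal ^ 2) {k : ℕ} {m : ℤ} (hb : b = (p : ℤ) ^ k * m)
    (hm : ¬ (p : ℤ) ∣ m) {l : ℕ} {n : ℤ} (h432 : (-432 : ℤ) = (p : ℤ) ^ l * n) (hn : ¬ (p : ℤ) ∣ n)
    {j0 : ℤ} (hj0 : P.valuation K (c : K) = WithZero.exp j0) :
    P.valuation K (E K).Δ = WithZero.exp (12 * j0 - (l : ℤ) - 2 * (k : ℤ)) := by
  have e3 : (E K).Δ = (((p : ℤ) ^ l * n : ℤ) : K) * (c : K) ^ 12 * (((p : ℤ) ^ k * m : ℤ) : K) ^ 2 := by
    have eA : cA K = 0 := by
      change ((CD.A : ℤ) : K) = 0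
      rw [A_zero h1 h2, Int.cast_zero]
    have eB : cB K = (c : K) ^ 6 * (b : K) := by
      change ((CD.B : ℤ) : K) = _
      rw [hB]
      push_cast
      ring
    rw [← hb, ← h432]
    simp only [E, WeierstrassCurve.Δ, WeierstrassCurve.b₂, WeierstrassCurve.b₄,
      WeierstrassCurve.b₆, WeierstrassCurve.b₈]
    rw [eA, eB]
    push_cast
    ring
  rw [e3, map_mul, map_mul, map_pow, map_pow, val_int hp hpP hsq k hm, val_int hp hpP hsq l hn, hj0,
    ← WithZero.exp_nsmul, ← WithZero.exp_nsmul, ← WithZero.exp_add, ← WithZero.exp_add]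
  congr 1
  simp
  ring

include hc hb0 hB in
/-- the places of bad reduction not dividing `2` -/
theorem bad_six (hfree : ∀ p : ℕ, p.Prime → ¬ (p : ℤ) ^ 6 ∣ b) {P : HeightOneSpectrum (𝓞 K)}
    (hP : ((6 * b : ℤ) : 𝓞 K) ∈ P.asIdeal) (hP2 : (2 : 𝓞 K) ∉ P.asIdeal) :
    ¬ ∃ C : VariableChange K, GM.GoodW (P.valuation K) (C • E K) := by
  have hE := ellK_six h1 h2
  have hq := ta_six h1 h2
  by_cases hP3 : (3 : 𝓞 K) ∈ P.asIdeal
  · refine bad_of_sq hE Nat.prime_three ?_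
    have h3 : (2 * ta - 1 : 𝓞 K) ^ 2 ∈ P.asIdeal := by
      have e : (2 * ta - 1 : 𝓞 K) ^ 2 = -1 * 3 := by linear_combination 4 * hq
      rw [e]
      exact P.asIdeal.mul_mem_left _ hP3
    have h4 : (2 * ta - 1 : 𝓞 K) ∈ P.asIdeal := P.isPrime.mem_of_pow_mem _ h3
    have e : ((3 : ℕ) : 𝓞 K) = -1 * (2 * ta - 1) ^ 2 := by
      push_cast
      linear_combination 4 * hq
    rw [e]
    exact Ideal.mul_mem_left _ _ (Ideal.pow_mem_pow h4 2)
  · obtain ⟨p, hp, hpP⟩ := exists_prime_mem P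
    by_cases hsq : (p : 𝓞 K) ∈ P.asIdeal ^ 2
    · exact bad_of_sq hE hp hsq
    · have hp2 : p ≠ 2 := by
        rintro rfl
        rw [Nat.cast_ofNat] at hpP
        exact hP2 hpP
      have hp3 : p ≠ 3 := by
        rintro rfl
        rw [Nat.cast_ofNat] at hpP
        exact hP3 hpP
      have hpb : (p : ℤ) ∣ b := by
        by_contra h3
        have h4 : (b : 𝓞 K) ∉ P.asIdeal := int_notMem hp hpP h3
        have e : ((6 * b : ℤ) : 𝓞 K) = 2 * (3 * (b : 𝓞 K)) := by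
          push_cast
          ring
        rw [e] at hP
        rcases P.isPrime.mem_or_mem hP with h5 | h5
        · exact hP2 h5
        · rcases P.isPrime.mem_or_mem h5 with h6 | h6
          · exact hP3 h6
          · exact h4 h6
      obtain ⟨k, m, e1, e2⟩ := exists_pow hp b hb0
      obtain ⟨j0, hj0⟩ := exists_exp (P := P) (x := (c : K)) (Int.cast_ne_zero.2 hc)
      have hk : k ≠ 0 := by
        rintro rfl
        rw [pow_zero, one_mul] at e1
        rw [e1] at hpb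
        exact e2 hpb
      have hk6 : k < 6 := by
        by_contra h3
        apply hfree p hp
        rw [e1]
        exact Dvd.dvd.mul_right (pow_dvd_pow _ (not_lt.1 h3)) _
      have h432 : ¬ (p : ℤ) ∣ -432 := by
        intro h3
        have h4 : (p : ℤ) ∣ 2 ^ 4 * 3 ^ 3 := by
          have e : (2 : ℤ) ^ 4 * 3 ^ 3 = -(-432) := by norm_num
          rw [e]
          exact (dvd_neg).2 h3
        have hpi := Nat.prime_iff_prime_int.1 hp
        rcases hpi.dvd_or_dvd h4 with h5 | h5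
        · have h6 := hpi.dvd_of_dvd_pow h5
          exact hp2 ((Nat.prime_dvd_prime_iff_eq hp Nat.prime_two).1 (by exact_mod_cast h6))
        · have h6 := hpi.dvd_of_dvd_pow h5
          exact hp3 ((Nat.prime_dvd_prime_iff_eq hp Nat.prime_three).1 (by exact_mod_cast h6))
      have hv := disc_val h1 h2 hc hb0 hB hp hpP hsq e1 e2 (l := 0) (n := -432) (by norm_num) h432
        hj0
      intro hgood
      obtain ⟨j, hj⟩ := disc_exp hgood hv
      push_cast at hj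
      omega

end

end Pool.Agent.Lib.MP_1a91b9_nuX.HS
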