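import Pool.Agent.Lib.MP_1a91b9_nuX.HU.Mk
import Pool.Agent.Lib.MP_1a91b9_nuX.HU.Coef
import Pool.Agent.Lib.MP_1a91b9_nuX.HU.Em

/-!
# The points of order three of `y² = x³ + B`; the units of `ℤ[ω]`
-/

set_option autoImplicit false

namespace Pool.Agent.Lib.MP_1a91b9_nuX.HS

open NumberField IsDedekindDomain WeierstrassCurve Pool.Agent.Lib.MP_1a91b9_nuT DB HU
open Pool.Agent.Lib.MP_1a91b9_nuX.GL

noncomputable section

variable [CD]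

theorem ta_six (h1 : CD.tr = 1) (h2 : CD.nm = 1) : (ta : 𝓞 K) ^ 2 = ta - 1 := by
  have h3 := ta_quad
  rw [h1, h2] at h3
  push_cast at h3
  linear_combination h3

/-- the units are sixth roots of unity -/
theorem unit_six (h1 : CD.tr = 1) (h2 : CD.nm = 1) (u : (𝓞 K)ˣ) : u ^ 6 = 1 := by
  have hq := ta_six h1 h2
  obtain ⟨m, n, hmn⟩ := exists_coords (u : 𝓞 K)
  have h3 : ((Ideal.absNorm (Ideal.span {(m : 𝓞 K) + (n : 𝓞 K) * ta}) : ℕ) : ℤ) = 1 := by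
    rw [← hmn, Ideal.span_singleton_eq_top.2 u.isUnit, Ideal.absNorm_top]
    rfl
  rw [absNorm_form, h1, h2] at h3
  have hm1 : m ≤ 1 := by nlinarith [sq_nonneg (m + 2 * n), sq_nonneg (m - 1)]
  have hm2 : -1 ≤ m := by nlinarith [sq_nonneg (m + 2 * n), sq_nonneg (m + 1)]
  have hn1 : n ≤ 1 := by nlinarith [sq_nonneg (n + 2 * m), sq_nonneg (n - 1)]
  have hn2 : -1 ≤ n := by nlinarith [sq_nonneg (n + 2 * m), sq_nonneg (n + 1)]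
  have hm : m = -1 ∨ m = 0 ∨ m = 1 := by omega
  have hn : n = -1 ∨ n = 0 ∨ n = 1 := by omega
  have t3 : (ta : 𝓞 K) ^ 3 = -1 := by linear_combination (ta + 1 : 𝓞 K) * hq
  have t6 : (ta : 𝓞 K) ^ 6 = 1 := by linear_combination ((ta : 𝓞 K) ^ 3 - 1) * t3
  apply Units.ext
  rw [Units.val_pow_eq_pow_val, hmn, Units.val_one]
  rcases hm with rfl | rfl | rfl <;> rcases hn with rfl | rfl | rfl
  · norm_num at h3
  · push_cast
    ring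
  · push_cast
    have e : (-1 + 1 * ta : 𝓞 K) = ta ^ 2 := by linear_combination -hq
    rw [e, ← pow_mul]
    linear_combination ((ta : 𝓞 K) ^ 6 + 1) * t6
  · push_cast
    have e : (0 + -1 * ta : 𝓞 K) = -ta := by ring
    rw [e, Even.neg_pow (by decide)]
    exact t6
  · norm_num at h3
  · push_cast
    rw [zero_add, one_mul]
    exact t6
  · push_cast
    have e : (1 + -1 * ta : 𝓞 K) = -ta ^ 2 := by linear_combination hq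
    rw [e, Even.neg_pow (by decide), ← pow_mul]
    linear_combination ((ta : 𝓞 K) ^ 6 + 1) * t6
  · push_cast
    ring
  · norm_num at h3

/-- the units are different modulo a place not dividing `6` -/
theorem unit_cong (h1 : CD.tr = 1) (h2 : CD.nm = 1) {P : HeightOneSpectrum (𝓞 K)}
    (h6 : (6 : 𝓞 K) ∉ P.asIdeal) {u v : (𝓞 K)ˣ} (h : (u : 𝓞 K) - v ∈ P.asIdeal) : u = v := by
  obtain ⟨z, hz⟩ : ∃ z : (𝓞 K)ˣ, z = v⁻¹ * u := ⟨_, rfl⟩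
  have hu : u = v * z := by rw [hz, mul_inv_cancel_left]
  have h3 : (z : 𝓞 K) - 1 ∈ P.asIdeal := by
    have e : (z : 𝓞 K) - 1 = ((v⁻¹ : (𝓞 K)ˣ) : 𝓞 K) * ((u : 𝓞 K) - v) := by
      rw [hz, Units.val_mul, mul_sub, ← Units.val_mul v⁻¹ v, inv_mul_cancel, Units.val_one]
    rw [e]
    exact P.asIdeal.mul_mem_left _ h
  by_contra hne
  have hz1 : (z : 𝓞 K) - 1 ≠ 0 := by
    intro h4
    apply hne
    rw [hu]
    have h5 : z = 1 := Units.ext (sub_eq_zero.1 h4)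
    rw [h5, mul_one]
  have h6z : (z : 𝓞 K) ^ 6 = 1 := by
    have h4 := unit_six h1 h2 z
    rw [← Units.val_pow_eq_pow_val, h4, Units.val_one]
  have h4 : ((z : 𝓞 K) - 1) * ((z : 𝓞 K) ^ 5 + (z : 𝓞 K) ^ 4 + (z : 𝓞 K) ^ 3 + (z : 𝓞 K) ^ 2 +
      (z : 𝓞 K) + 1) = 0 := by
    linear_combination h6z
  have h5 := (mul_eq_zero.1 h4).resolve_left hz1
  apply h6
  have e : (6 : 𝓞 K) = ((z : 𝓞 K) - 1) * (-((z : 𝓞 K) ^ 4 + 2 * (z : 𝓞 K) ^ 3 + 3 * (z : 𝓞 K) ^ 2 +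
      4 * (z : 𝓞 K) + 5)) := by
    linear_combination h5
  rw [e]
  exact P.asIdeal.mul_mem_right _ h3

/-- the sixth roots of unity of the algebraic closure -/
theorem root_six (h1 : CD.tr = 1) (h2 : CD.nm = 1) {y : Kb} (hy : y ^ 6 = 1) :
    ∃ v : (𝓞 K)ˣ, y = eK (v : 𝓞 K) := by
  have hq := ta_six h1 h2
  have hi2 : eK (ta : 𝓞 K) ^ 2 = eK ta - 1 := by
    rw [← eK_pow, hq, eK_sub, eK_one]
  have hU : eK ((taU h2 : (𝓞 K)ˣ) : 𝓞 K) = eK ta := by rw [taU_val]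
  have hV : eK (((taU h2)⁻¹ : (𝓞 K)ˣ) : 𝓞 K) = 1 - eK ta := by
    have e : (((taU h2)⁻¹ : (𝓞 K)ˣ) : 𝓞 K) = 1 - ta := by
      change (CD.tr : 𝓞 K) - ta = 1 - ta
      rw [h1, Int.cast_one]
    rw [e, eK_sub, eK_one]
  have h3 : (y - 1) * ((y + 1) * ((y - eK ta) * ((y - (1 - eK ta)) * ((y + eK ta) *
      (y + (1 - eK ta)))))) = 0 := by
    linear_combination hy + (y ^ 2 - 1) * (-2 * y ^ 2 - 1 + eK ta ^ 2 - eK ta) * hi2
  rcases mul_eq_zero.1 h3 with h4 | h4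
  · exact ⟨1, by rw [Units.val_one, eK_one]; linear_combination h4⟩
  rcases mul_eq_zero.1 h4 with h4 | h4
  · exact ⟨-1, by rw [Units.val_neg, Units.val_one, eK_neg, eK_one]; linear_combination h4⟩
  rcases mul_eq_zero.1 h4 with h4 | h4
  · exact ⟨taU h2, by rw [hU]; linear_combination h4⟩
  rcases mul_eq_zero.1 h4 with h4 | h4
  · exact ⟨(taU h2)⁻¹, by rw [hV]; linear_combination h4⟩
  rcases mul_eq_zero.1 h4 with h4 | h4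
  · exact ⟨-taU h2, by rw [Units.val_neg, eK_neg, hU]; linear_combination h4⟩
  · exact ⟨-(taU h2)⁻¹, by rw [Units.val_neg, eK_neg, hV]; linear_combination h4⟩

/-- the test point -/
theorem test_pt [DecidableEq Kb] (h1 : CD.tr = 1) (h2 : CD.nm = 1) {s : Kb} (hs : s ≠ 0)
    (hB : 4 * cB Kb = s ^ 6) : ∃ T : Pt Kb, xc T = -s ^ 2 ∧ yc T = eK (2 * ta - 1) * s ^ 3 / 2 ∧
      T ≠ 0 ∧ eK (2 * ta - 1) ≠ 0 ∧ (3 : ℕ) • T = 0 := by
  have hq := ta_six h1 h2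
  obtain ⟨δ, hδ⟩ : ∃ δ, δ = eK (2 * ta - 1) := ⟨_, rfl⟩
  have hδ2 : δ ^ 2 = -3 := by
    have e : (2 * ta - 1 : 𝓞 K) ^ 2 = ((-3 : ℤ) : 𝓞 K) := by
      push_cast
      linear_combination 4 * hq
    rw [hδ, ← eK_pow, e, eK_int]
    push_cast
    rfl
  have hδ0 : δ ≠ 0 := by
    rintro h
    rw [h, zero_pow two_ne_zero] at hδ2
    norm_num at hδ2
  have hA : cA Kb = 0 := by
    change ((CD.A : ℤ) : Kb) = 0
    rw [A_zero h1 h2, Int.cast_zero]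
  have hB' : cB Kb = s ^ 6 / 4 := by
    rw [← hB]
    ring
  rw [← hδ]
  have h0 : (δ * s ^ 3 / 2) ^ 2 = (-s ^ 2) ^ 3 + cA Kb * (-s ^ 2) + cB Kb := by
    rw [hA, hB']
    linear_combination (s ^ 6 / 4) * hδ2
  have hy0 : δ * s ^ 3 / 2 ≠ 0 := div_ne_zero (mul_ne_zero hδ0 (pow_ne_zero 3 hs)) two_ne_zero
  obtain ⟨h', e1⟩ := mk_dbl (-s ^ 2) (δ * s ^ 3 / 2) h0 hy0
  have esl : (3 * (-s ^ 2) ^ 2 + cA Kb) / (2 * (δ * s ^ 3 / 2)) = -δ * s := by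
    rw [hA, div_eq_iff (mul_ne_zero two_ne_zero hy0)]
    linear_combination (s ^ 4) * hδ2
  have ex : ((3 * (-s ^ 2) ^ 2 + cA Kb) / (2 * (δ * s ^ 3 / 2))) ^ 2 - -s ^ 2 - -s ^ 2 = -s ^ 2 := by
    rw [esl]
    linear_combination (s ^ 2) * hδ2
  have ey : -((3 * (-s ^ 2) ^ 2 + cA Kb) / (2 * (δ * s ^ 3 / 2)) *
      ((((3 * (-s ^ 2) ^ 2 + cA Kb) / (2 * (δ * s ^ 3 / 2))) ^ 2 - -s ^ 2 - -s ^ 2) -
        -s ^ 2) + δ * s ^ 3 / 2) = -(δ * s ^ 3 / 2) := by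
    rw [ex]
    ring
  have e2 : mkPt (-s ^ 2) (δ * s ^ 3 / 2) h0 + mkPt (-s ^ 2) (δ * s ^ 3 / 2) h0 =
      -mkPt (-s ^ 2) (δ * s ^ 3 / 2) h0 := by
    rw [e1, neg_mk, mk_inj]
    exact ⟨ex, ey⟩
  refine ⟨mkPt (-s ^ 2) (δ * s ^ 3 / 2) h0, rfl, rfl, mk_ne_zero _ _ _, hδ0, ?_⟩
  have e6 : (3 : ℕ) • mkPt (-s ^ 2) (δ * s ^ 3 / 2) h0 =
      (mkPt (-s ^ 2) (δ * s ^ 3 / 2) h0 + mkPt (-s ^ 2) (δ * s ^ 3 / 2) h0) +
      mkPt (-s ^ 2) (δ * s ^ 3 / 2) h0 := by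
    abel
  rw [e6, e2, neg_add_cancel]

end

end Pool.Agent.Lib.MP_1a91b9_nuX.HS
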