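import Pool.Agent.Lib.MP_1a91b9_nuX.HS.Loc

/-!
# The place over `2` in the case of bad reduction
-/

set_option autoImplicit false

namespace Pool.Agent.Lib.MP_1a91b9_nuX.HS

open NumberField IsDedekindDomain WeierstrassCurve Pool.Agent.Lib.MP_1a91b9_nuT DB HU
open Pool.Agent.Lib.MP_1a91b9_nuX.GL

noncomputable section

section
variable {F : Type*} [Field F] {v : Valuation F (WithZero (Multiplicative ℤ))}

/-- the exponent of a value -/
theorem two_exp {x : F} {j : ℤ} (h : v x ≤ WithZero.exp j) : x = 0 ∨ ∃ i : ℤ,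
    v x = WithZero.exp i ∧ i ≤ j := by
  by_cases hx : x = 0
  · exact Or.inl hx
  · right
    have h1 : v x ≠ 0 := (Valuation.ne_zero_iff _).2 hx
    refine ⟨WithZero.log (v x), (WithZero.exp_log h1).symm, ?_⟩
    rwa [← WithZero.exp_log h1, WithZero.exp_le_exp] at h

/-- roots -/
theorem two_root {x : F} {j : ℤ} {n : ℕ} (hn : 0 < n) {l : ℤ} (hl : j < n * (l + 1))
    (h : v (x ^ n) ≤ WithZero.exp j) : v x ≤ WithZero.exp l := by
  by_cases hx : x = 0
  · rw [hx, map_zero]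
    exact zero_le
  · have h1 : v x ≠ 0 := (Valuation.ne_zero_iff _).2 hx
    obtain ⟨i, hi⟩ : ∃ i : ℤ, v x = WithZero.exp i := ⟨_, (WithZero.exp_log h1).symm⟩
    rw [map_pow, hi, ← WithZero.exp_nsmul, WithZero.exp_le_exp, nsmul_eq_mul] at h
    rw [hi, WithZero.exp_le_exp]
    by_contra h2
    push Not at h2
    have h3 : (l : ℤ) + 1 ≤ i := h2
    have h4 : (n : ℤ) * (l + 1) ≤ n * i := mul_le_mul_of_nonneg_left h3 (by positivity)
    linarith

/-- a square modulo `4` from the coefficients of a good model -/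
theorem two_core [CharZero F] (h2 : v (2 : F) = WithZero.exp (-1 : ℤ)) {u r t m : F}
    (hu : v u = 1) (hm : v m ≤ 1)
    (a3 : v ((2 * t) / (2 * u) ^ 3) ≤ 1)
    (a6 : v ((16 * m + r ^ 3 - t ^ 2) / (2 * u) ^ 6) ≤ 1) :
    ∃ x : F, v x ≤ 1 ∧ v (m - x ^ 2) ≤ WithZero.exp (-2 : ℤ) := by
  have hu0 : u ≠ 0 := by
    rintro rfl
    rw [map_zero] at hu
    exact zero_ne_one hu
  have h20 : (2 : F) ≠ 0 := two_ne_zero
  obtain ⟨x, hx⟩ : ∃ x : F, x = t / 4 := ⟨_, rfl⟩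
  have ht : t = 4 * x := by
    rw [hx]
    ring
  have hx1 : v x ≤ 1 := by
    have e : (2 * t) / (2 * u) ^ 3 = x / u ^ 3 := by
      rw [ht]
      field_simp
      ring
    rw [e, map_div₀, map_pow, hu, one_pow, div_one] at a3
    exact a3
  have h64 : v ((2 * u) ^ 6) = WithZero.exp (-6 : ℤ) := by
    rw [map_pow, map_mul, hu, mul_one, h2, ← WithZero.exp_nsmul]
    congr 1
  have h6 : v (16 * m + r ^ 3 - t ^ 2) ≤ WithZero.exp (-6 : ℤ) := by
    rw [map_div₀, h64] at a6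
    have h7 : v (16 * m + r ^ 3 - t ^ 2) = v (16 * m + r ^ 3 - t ^ 2) / WithZero.exp (-6 : ℤ) *
        WithZero.exp (-6 : ℤ) := (div_mul_cancel₀ _ WithZero.exp_ne_zero).symm
    rw [h7]
    exact mul_le_of_le_one_left' a6
  have h16 : v (16 : F) = WithZero.exp (-4 : ℤ) := by
    have e : (16 : F) = 2 ^ 4 := by norm_num
    rw [e, map_pow, h2, ← WithZero.exp_nsmul]
    congr 1
  have hr3 : v (r ^ 3) ≤ WithZero.exp (-4 : ℤ) := by
    have e : r ^ 3 = (16 * m + r ^ 3 - t ^ 2) - 16 * (m - x ^ 2) := by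
      rw [ht]
      ring
    rw [e]
    refine (v.map_sub _ _).trans (max_le ?_ ?_)
    · exact h6.trans (WithZero.exp_le_exp.2 (by norm_num))
    · rw [map_mul, h16]
      refine mul_le_of_le_one_right' ?_
      refine (v.map_sub _ _).trans (max_le hm ?_)
      rw [map_pow]
      exact pow_le_one' hx1 2
  have hr : v r ≤ WithZero.exp (-2 : ℤ) := two_root (n := 3) (by norm_num) (by norm_num) hr3
  have hr6 : v (r ^ 3) ≤ WithZero.exp (-6 : ℤ) := by
    rw [map_pow]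
    refine (pow_le_pow_left' hr 3).trans ?_
    rw [← WithZero.exp_nsmul]
    exact (WithZero.exp_le_exp.2 (by norm_num))
  refine ⟨x, hx1, ?_⟩
  have h8 : v (16 * (m - x ^ 2)) ≤ WithZero.exp (-6 : ℤ) := by
    have e : 16 * (m - x ^ 2) = (16 * m + r ^ 3 - t ^ 2) - r ^ 3 := by
      rw [ht]
      ring
    rw [e]
    exact (v.map_sub _ _).trans (max_le h6 hr6)
  rw [map_mul, h16] at h8
  have h9 : WithZero.exp (4 : ℤ) * (WithZero.exp (-4 : ℤ) * v (m - x ^ 2)) ≤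
      WithZero.exp (4 : ℤ) * WithZero.exp (-6 : ℤ) := mul_le_mul_right h8 _
  rw [← mul_assoc, ← WithZero.exp_add, ← WithZero.exp_add] at h9
  have e0 : (WithZero.exp ((4 : ℤ) + -4) : WithZero (Multiplicative ℤ)) = 1 := by
    norm_num
  have e1 : (4 : ℤ) + -6 = -2 := by norm_num
  rw [e0, one_mul, e1] at h9
  exact h9

end

variable [CD] (h1 : CD.tr = 1) (h2 : CD.nm = 1) {b c : ℤ} (hc : c ≠ 0) (hb0 : b ≠ 0)
  (hB : CD.B = c ^ 6 * b)

include h1 h2 hc hb0 hB in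
/-- the place over `2` in the case of bad reduction -/
theorem bad_two (hfree : ∀ p : ℕ, p.Prime → ¬ (p : ℤ) ^ 6 ∣ b) {P : HeightOneSpectrum (𝓞 K)}
    (hP : (2 : 𝓞 K) ∈ P.asIdeal) (hn : ¬ ∃ m : ℤ, b = 16 * (4 * m + 1)) :
    ¬ ∃ C : VariableChange K, GM.GoodW (P.valuation K) (C • E K) := by
  have hE := ellK_six h1 h2
  have hp := Nat.prime_two
  have hpP : ((2 : ℕ) : 𝓞 K) ∈ P.asIdeal := by
    rw [Nat.cast_ofNat]
    exact hP
  by_cases hsq : ((2 : ℕ) : 𝓞 K) ∈ P.asIdeal ^ 2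
  · exact bad_of_sq hE hp hsq
  obtain ⟨k, m, e1, e2⟩ := exists_pow hp b hb0
  obtain ⟨j0, hj0⟩ := exists_exp (P := P) (x := (c : K)) (Int.cast_ne_zero.2 hc)
  have hk6 : k < 6 := by
    by_contra h3
    apply hfree 2 hp
    rw [e1]
    exact Dvd.dvd.mul_right (pow_dvd_pow _ (not_lt.1 h3)) _
  have hv := disc_val h1 h2 hc hb0 hB hp hpP hsq e1 e2 (l := 4) (n := -27) (by norm_num)
    (by norm_num) hj0
  intro hgood
  obtain ⟨j, hj⟩ := disc_exp hgood hv
  push_cast at hj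
  have hk4 : k = 4 := by omega
  subst hk4
  obtain ⟨C, hC⟩ := hgood
  have hu12 := val_disc hC
  rw [hv] at hu12
  obtain ⟨j1, hj1⟩ := exists_exp (P := P) C.u.ne_zero
  have hj1' : j1 = j0 - 1 := by
    rw [hj1, ← WithZero.exp_nsmul] at hu12
    have h3 := WithZero.exp_injective hu12
    simp at h3
    omega
  have hv2 : P.valuation K (2 : K) = WithZero.exp (-1 : ℤ) := by
    have h3 := val_prime hpP hsq hp.ne_zero
    rw [Nat.cast_ofNat] at h3
    exact h3
  have hc0 : (c : K) ≠ 0 := Int.cast_ne_zero.2 hc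
  have hu0 : (C.u : K) ≠ 0 := C.u.ne_zero
  obtain ⟨u, hu⟩ : ∃ u : K, u = (C.u : K) / (2 * c) := ⟨_, rfl⟩
  have hCu : (C.u : K) = 2 * (c : K) * u := by
    rw [hu]
    field_simp
  have huv : P.valuation K u = 1 := by
    rw [hu, map_div₀, map_mul, hj1, hj0, hv2, hj1', ← WithZero.exp_add, ← WithZero.exp_sub]
    have e : j0 - 1 - (-1 + j0) = 0 := by ring
    rw [e, WithZero.exp_zero]
  have hu00 : u ≠ 0 := by
    rintro rfl
    rw [map_zero] at huv
    exact zero_ne_one huv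
  have eA : cA K = 0 := by
    change ((CD.A : ℤ) : K) = 0
    rw [A_zero h1 h2, Int.cast_zero]
  have eB : cB K = (c : K) ^ 6 * (16 * (m : K)) := by
    change ((CD.B : ℤ) : K) = _
    rw [hB, e1]
    push_cast
    ring
  have hui : ((C.u⁻¹ : Kˣ) : K) = (C.u : K)⁻¹ := by simp
  have a3 := hC.toIntW.a3
  rw [variableChange_a₃, hui, hCu] at a3
  have a6 := hC.toIntW.a6
  rw [variableChange_a₆, hui, hCu] at a6
  simp only [E] at a3 a6
  rw [eA, eB] at a6
  have a3' : P.valuation K ((2 * (C.t / (c : K) ^ 3)) / (2 * u) ^ 3) ≤ 1 := by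
    have e : (2 * (C.t / (c : K) ^ 3)) / (2 * u) ^ 3 =
        (2 * (c : K) * u)⁻¹ ^ 3 * (0 + C.r * 0 + 2 * C.t) := by
      field_simp
      ring
    rw [e]
    exact a3
  have a6' : P.valuation K ((16 * (m : K) + (C.r / (c : K) ^ 2) ^ 3 - (C.t / (c : K) ^ 3) ^ 2) /
      (2 * u) ^ 6) ≤ 1 := by
    have e : (16 * (m : K) + (C.r / (c : K) ^ 2) ^ 3 - (C.t / (c : K) ^ 3) ^ 2) / (2 * u) ^ 6 =
        (2 * (c : K) * u)⁻¹ ^ 6 * ((c : K) ^ 6 * (16 * (m : K)) + C.r * 0 + C.r ^ 2 * 0 + C.r ^ 3 -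
          C.t * 0 - C.t ^ 2 - C.r * C.t * 0) := by
      field_simp
      ring
    rw [e]
    exact a6
  obtain ⟨x, hx1, hx2⟩ := two_core hv2 huv (val_le_int m) a3' a6'
  -- an integral approximation
  obtain ⟨y, hy⟩ := P.exists_valuation_sub_lt_of_integer hx1
    (Units.mk0 (WithZero.exp (-1 : ℤ)) WithZero.exp_ne_zero)
  rw [Units.val_mk0] at hy
  have hy2 : P.valuation K (algebraMap (𝓞 K) K y - x) ≤ WithZero.exp (-2 : ℤ) := by
    by_cases h0 : algebraMap (𝓞 K) K y - x = 0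
    · rw [h0, map_zero]
      exact zero_le
    · obtain ⟨i, hi⟩ := exists_exp (P := P) h0
      rw [hi, WithZero.exp_lt_exp] at hy
      rw [hi, WithZero.exp_le_exp]
      omega
  have hy1 : P.valuation K (algebraMap (𝓞 K) K y) ≤ 1 := P.valuation_le_one y
  have hfin : P.valuation K ((m : K) - algebraMap (𝓞 K) K y ^ 2) ≤ WithZero.exp (-2 : ℤ) := by
    have e : (m : K) - algebraMap (𝓞 K) K y ^ 2 = ((m : K) - x ^ 2) -
        (algebraMap (𝓞 K) K y - x) * (algebraMap (𝓞 K) K y + x) := by ring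
    rw [e]
    refine ((P.valuation K).map_sub _ _).trans (max_le hx2 ?_)
    rw [map_mul]
    refine (mul_le_mul' hy2 (((P.valuation K).map_add _ _).trans (max_le hy1 hx1))).trans ?_
    rw [mul_one]
  have hmem : (m : 𝓞 K) - y ^ 2 ∈ P.asIdeal ^ 2 := by
    have e : (m : K) - algebraMap (𝓞 K) K y ^ 2 = algebraMap (𝓞 K) K ((m : 𝓞 K) - y ^ 2) := by
      rw [map_sub, map_pow, map_intCast]
    rw [e, HeightOneSpectrum.valuation_of_algebraMap] at hfin
    exact (HeightOneSpectrum.intValuation_le_pow_iff_mem _ _ 2).1 hfin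
  rw [two_eq h1 h2 hP, Ideal.span_singleton_pow, Ideal.mem_span_singleton] at hmem
  have h22 : (2 : 𝓞 K) ^ 2 = 4 := by norm_num
  rw [h22] at hmem
  have hodd : Odd m := by
    rw [← Int.not_even_iff_odd]
    rintro ⟨a, ha⟩
    apply e2
    exact ⟨a, by rw [ha]; push_cast; ring⟩
  obtain ⟨l, hl⟩ := sq_mod_four h1 h2 hodd hmem
  apply hn
  refine ⟨l, ?_⟩
  rw [e1, hl]
  norm_num

end

end Pool.Agent.Lib.MP_1a91b9_nuX.HS
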